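import Pool.Agent.U405.KE.D

/-!
# The hyperplane conjecture of KLS for convex bodies given by functions of few energies

Q1 for all symmetric images, under affine maps `ℝⁿ → ℝ^{n'}`, `n ≤ n' + p`, of the following convex bodies
`K ⊂ ℝⁿ` (`K` need not be symmetric, only the image):

`K = {y | (S_1(y), …, S_r(y), u(y)) ∈ D}`

where `S_1, …, S_r ≥ 0` are convex functions with bounded joint sublevel sets, `u` consists of `k` linear
functionals, and `D ⊂ ℝ^r × ℝ^k` is any closed convex set with `(s', u) ∈ D`, `s ≤ s'` implies `(s, u) ∈ D`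
(`Region`). More generally, the `S_j` may be the restrictions of convex functions on `ℝ^N` to an affine
subspace `v = const` of codimension `q`: coordinates `z = ψ(x, u, v)`, `x ∈ ℝ^m`, `u ∈ ℝ^k`, `v ∈ ℝ^q`. `K` has to
be bounded, with a point `y` and `s` such that `S_j(y) < s_j` for all `j` and `(s, u(y))` is an interior point of
`D`. Nothing is assumed about the structure of the `S_j`. The hypothesis is that the canonical ensembles
(Gibbs densities)

`exp (-∑_j l_j S_j(z) - ⟪a, u⟫ - ⟪b, v⟫)` on `ℝ^N`, all `l_j > 0`, `a ∈ ℝ^k`, `b ∈ ℝ^q`,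

or the microcanonical ensembles, the uniform measures on `{x ∈ ℝ^m | S_j(ψ(x, u, v)) ≤ s_j}` for all `s, u, v`
with a point where all inequalities are strict, satisfy the inequality of Kannan, Lovasz and
Simonovits in the weak form `WeakPoincare A` (`Var v ≤ δ + A(δ) σ E ‖∇ v‖²` for all linear images with
variances at most `σ`, all `δ > 0` and `|v| ≤ 1`; the function `A` is fixed in advance; a Poincare inequality
with constant `c₀` in isotropic position gives `A(δ) = c₀ / (4 δ)`). The constant depends only on `A`, `r`,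
`k`, `q`, `p`.

Examples of sets `D`: `{s ≤ e}`, `k = 0` (the microcanonical ensembles themselves; for the canonical
hypothesis and symmetric bodies this is the starting file `GibbsLevelSets` on page `MP_dc1397_gt`);
`{Φ(s, u) ≤ 0}` with a convex function `Φ` which is nondecreasing in `s_1, …, s_r`; for instance the unit balls
of norms `Φ(N_1(y), …, N_r(y), |u_1(y)|, …, |u_k(y)|)` for a monotone norm `Φ` on `ℝ^{r+k}` and norms `N_j`, and
bodies with constraints which couple a few energies (`S_1(y)² + S_2(y) u_1(y)²`-type constraints as far as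
they are convex and monotone).

Method. (1) From the canonical to the microcanonical ensembles: supporting functional of the
logarithm of the volume, a convex body over the Gibbs density, and the theorem on large sections
(starting library). (2) From the microcanonical ensembles to `K`: for a bound `R` for the energies let
`W(x, u, s) = 1` if `S_j(x, u) ≤ s_j ≤ R` and `(s, u) ∈ D`, and `W = 0` otherwise. This is the indicator function of
a convex body in `n + r` dimensions whose fibres over `(u, s)` are microcanonical ensembles. A fibre with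
nearly maximal volume, moved slightly towards the given strict point, has a strict point (its
volume is controlled by a homothety), so it satisfies the inequality, and so does `W` by the theorem on
extensions (class `MC` of `LargeSections` on page `MP_6d896a_gt`). `K` is the projection of the body `W` along `r`
dimensions, because `D` is decreasing in `s`. (3) The images, and the passage from the concentration
of all linear images to central sections, are those of `ImagesOfSections`.
-/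

set_option autoImplicit false

namespace Pool.Agent.Results.MP_dc1397_gt.FunctionsOfEnergies

open MeasureTheory Set
open scoped ENNReal InnerProductSpace

/-- Euclidean space of dimension `n` -/
abbrev Euc (n : ℕ) : Type := EuclideanSpace ℝ (Fin n)

/-- the uniform probability measure on `K` -/
noncomputable def unif {n : ℕ} (K : Set (Euc n)) : Measure (Euc n) :=
  (volume K)⁻¹ • volume.restrict K

/-- the probability measure on `ℝⁿ` with density proportional to `w` -/
noncomputable def law {n : ℕ} (w : Euc n → ℝ) : Measure (Euc n) :=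
  (∫⁻ x, ENNReal.ofReal (w x))⁻¹ • volume.withDensity fun x => ENNReal.ofReal (w x)

/-- The inequalities `Var v(P x) ≤ δ + A(δ) σ E ‖∇ v(P x)‖²` for all `δ > 0`, all linear images `P x` of
`x` (of law `μ`), all bounds `σ` for the variances of the marginals of `P x` in directions of length
one, and all `C¹` functions `v` with `|v| ≤ 1` and bounded gradient. They follow, with
`A(δ) = c₀ / (4 δ)`, from the Poincare inequality with constant `c₀` for `μ` in isotropic position. -/
def WeakPoincare (A : ℝ → ℝ) {M : ℕ} (μ : Measure (Euc M)) : Prop :=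
  ∀ δ : ℝ, 0 < δ → ∀ (k : ℕ) (P : Euc M →ₗ[ℝ] Euc k) (σ : ℝ), 0 < σ →
  (∀ θ : Euc k, ‖θ‖ = 1 → ProbabilityTheory.variance (fun x => ⟪P x, θ⟫_ℝ) μ ≤ σ) →
  ∀ (v : Euc k → ℝ) (C : ℝ), ContDiff ℝ 1 v → (∀ y, |v y| ≤ 1) → (∀ y, ‖fderiv ℝ v y‖ ≤ C) →
  ProbabilityTheory.variance (fun x => v (P x)) μ ≤ δ + A δ * σ * ∫ x, ‖fderiv ℝ v (P x)‖ ^ 2 ∂μ

/-- convex functions `S_1, …, S_r ≥ 0` with bounded joint sublevel sets -/
structure Energies {r N : ℕ} (S : Fin r → Euc N → ℝ) : Prop where
  convex : ∀ j, ConvexOn ℝ univ (S j)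
  nonneg : ∀ j z, 0 ≤ S j z
  bdd : ∀ s : Fin r → ℝ, Bornology.IsBounded {z | ∀ j, S j z ≤ s j}

/-- linear coordinates `z = ψ(x, u, v)` on `ℝ^N`, `x ∈ ℝ^m`, `u ∈ ℝ^k`, `v ∈ ℝ^q` -/
abbrev Coords (m k q N : ℕ) : Type := (Euc m × Euc k × Euc q) ≃ₗ[ℝ] Euc N

/-- linear coordinates `y = e(x, u)` on `ℝⁿ`, `x ∈ ℝ^m`, `u ∈ ℝ^k` -/
abbrev Split (m k n : ℕ) : Type := (Euc m × Euc k) ≃ₗ[ℝ] Euc n

/-- the point `ψ(x, u, v)` -/
def pt {m k q N : ℕ} (ψ : Coords m k q N) (x : Euc m) (u : Euc k) (v : Euc q) : Euc N :=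
  ψ (x, u, v)

/-- the coordinate `u` of `z = ψ(x, u, v)` -/
def uPart {m k q N : ℕ} (ψ : Coords m k q N) (z : Euc N) : Euc k := (ψ.symm z).2.1

/-- the coordinate `v` of `z = ψ(x, u, v)` -/
def vPart {m k q N : ℕ} (ψ : Coords m k q N) (z : Euc N) : Euc q := (ψ.symm z).2.2

/-- the Gibbs density `exp (-∑_j l_j S_j(z) - ⟪a, u⟫ - ⟪b, v⟫)`, `z = ψ(x, u, v)` -/
noncomputable def gibbs {r m k q N : ℕ} (ψ : Coords m k q N) (S : Fin r → Euc N → ℝ)
    (l : Fin r → ℝ) (a : Euc k) (b : Euc q) (z : Euc N) : ℝ :=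
  Real.exp (-(∑ j, l j * S j z + ⟪a, uPart ψ z⟫_ℝ + ⟪b, vPart ψ z⟫_ℝ))

/-- all Gibbs densities with `l_j > 0` are integrable and satisfy `WeakPoincare A` -/
def Canonical (A : ℝ → ℝ) {r m k q N : ℕ} (ψ : Coords m k q N) (S : Fin r → Euc N → ℝ) : Prop :=
  ∀ (l : Fin r → ℝ) (a : Euc k) (b : Euc q), (∀ j, 0 < l j) → Integrable (gibbs ψ S l a b) ∧
    WeakPoincare A (law (gibbs ψ S l a b))

/-- the set `{x | S_j(ψ(x, u, v)) ≤ s_j}` -/
def level {r m k q N : ℕ} (ψ : Coords m k q N) (S : Fin r → Euc N → ℝ) (s : Fin r → ℝ)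
    (u : Euc k) (v : Euc q) : Set (Euc m) := {x | ∀ j, S j (pt ψ x u v) ≤ s j}

/-- the uniform measures on all sets `{x | S_j(ψ(x, u, v)) ≤ s_j}`, with a point where all inequalities
are strict, satisfy `WeakPoincare A` -/
def Microcanonical (A : ℝ → ℝ) {r m k q N : ℕ} (ψ : Coords m k q N)
    (S : Fin r → Euc N → ℝ) : Prop :=
  ∀ (s : Fin r → ℝ) (u : Euc k) (v : Euc q), (∃ x, ∀ j, S j (pt ψ x u v) < s j) →
    WeakPoincare A (unif (level ψ S s u v))

/-- closed convex sets which contain with `(s', u)` all `(s, u)`, `s ≤ s'` -/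
structure Region {r k : ℕ} (D : Set ((Fin r → ℝ) × Euc k)) : Prop where
  closed : IsClosed D
  convex : Convex ℝ D
  down : ∀ s s' u, (s', u) ∈ D → (∀ j, s j ≤ s' j) → (s, u) ∈ D

/-- the functionals `u` of `y = e(x, u)` -/
def stat {m k n : ℕ} (e : Split m k n) (y : Euc n) : Euc k := (e.symm y).2

/-- the energies of `y = e(x, u)` on the subspace with the given `v` -/
def energy {r m k q n N : ℕ} (ψ : Coords m k q N) (e : Split m k n) (S : Fin r → Euc N → ℝ)
    (v : Euc q) (j : Fin r) (y : Euc n) : ℝ := S j (pt ψ (e.symm y).1 (stat e y) v)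

/-- the set `{y | (S_1(y), …, S_r(y), u(y)) ∈ D}` -/
def body {r m k q n N : ℕ} (ψ : Coords m k q N) (e : Split m k n) (S : Fin r → Euc N → ℝ)
    (v : Euc q) (D : Set ((Fin r → ℝ) × Euc k)) : Set (Euc n) :=
  {y | ((fun j => energy ψ e S v j y), stat e y) ∈ D}

/-- there are a point `y` and `s` such that `S_j(y) < s_j` and `(s, u(y))` is an interior point of `D` -/
def StrictPoint {r m k q n N : ℕ} (ψ : Coords m k q N) (e : Split m k n)
    (S : Fin r → Euc N → ℝ) (v : Euc q) (D : Set ((Fin r → ℝ) × Euc k)) : Prop :=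
  ∃ (y : Euc n) (s : Fin r → ℝ), (∀ j, energy ψ e S v j y < s j) ∧ (s, stat e y) ∈ interior D

/-- Bounded sets `K = {y | (S_1(y), …, S_r(y), u(y)) ∈ D}`, with a `StrictPoint`, where all Gibbs
densities, or all level sets, of the `S_j` satisfy `WeakPoincare A`. -/
def EnergyBody (A : ℝ → ℝ) (r k q : ℕ) {n : ℕ} (K : Set (Euc n)) : Prop :=
  ∃ (m N : ℕ) (ψ : Coords m k q N) (e : Split m k n) (S : Fin r → Euc N → ℝ) (v : Euc q)
    (D : Set ((Fin r → ℝ) × Euc k)), 1 ≤ m ∧ Energies S ∧
    (Canonical A ψ S ∨ Microcanonical A ψ S) ∧ Region D ∧ StrictPoint ψ e S v D ∧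
    K = body ψ e S v D ∧ Bornology.IsBounded K

/-- the Lebesgue measure of a Euclidean space -/
noncomputable def lebesgue (F : Type) [NormedAddCommGroup F] [InnerProductSpace ℝ F]
    [FiniteDimensional ℝ F] [MeasurableSpace F] [BorelSpace F] : Measure F := volume

/-- the Lebesgue measure (of the Euclidean space `W`) of the section `Ω ∩ W` by a subspace `W` -/
noncomputable def areaIn {F : Type} [NormedAddCommGroup F] [InnerProductSpace ℝ F]
    [FiniteDimensional ℝ F] [MeasurableSpace F] [BorelSpace F] (W : Submodule ℝ F) (Ω : Set F) :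
    ℝ≥0∞ := lebesgue W {y : W | (y : F) ∈ Ω}

section defs

variable {κ : Type} [Fintype κ]

open Classical in
/-- divergence of a vector field on `ℝ^κ` -/
noncomputable def divergence (X : EuclideanSpace ℝ κ → EuclideanSpace ℝ κ)
    (x : EuclideanSpace ℝ κ) : ℝ :=
  ∑ i, fderiv ℝ X x (EuclideanSpace.single i 1) i

/-- `C¹` vector fields with compact support in `Ω` and `‖X‖ ≤ 1` -/
structure Test (Ω : Set (EuclideanSpace ℝ κ)) (X : EuclideanSpace ℝ κ → EuclideanSpace ℝ κ) :
    Prop where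
  diff : ContDiff ℝ 1 X
  comp : HasCompactSupport X
  sub : tsupport X ⊆ Ω
  le : ∀ x, ‖X x‖ ≤ 1

/-- the (De Giorgi) perimeter `P(E; Ω)` of `E` relative to the open set `Ω` -/
noncomputable def perimeter (E Ω : Set (EuclideanSpace ℝ κ)) : ℝ≥0∞ :=
  ⨆ (X : EuclideanSpace ℝ κ → EuclideanSpace ℝ κ) (_ : Test Ω X),
    ENNReal.ofReal (∫ x in E, divergence X x)

/-- the area (Lebesgue measure in the hyperplane `a^⊥`) of the central section of `Ω` by `a^⊥` -/
noncomputable def sectionArea (Ω : Set (EuclideanSpace ℝ κ)) (a : EuclideanSpace ℝ κ) : ℝ≥0∞ :=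
  areaIn (Submodule.span ℝ {a})ᗮ Ω

/-- some central hyperplane section has area at most `C P(E; Ω)` for every measurable `E ⊆ Ω` with
`|E| = |Ω| / 2` -/
def HyperplaneBound (C : ℝ) (Ω : Set (EuclideanSpace ℝ κ)) : Prop :=
  ∃ a : EuclideanSpace ℝ κ, a ≠ 0 ∧ ∀ E : Set (EuclideanSpace ℝ κ), MeasurableSet E → E ⊆ Ω →
    volume E = volume Ω / 2 → sectionArea Ω a ≤ ENNReal.ofReal C * perimeter E Ω

/-- the perimeter is the one used in the proof -/
theorem perimeter_eq (E Ω : Set (EuclideanSpace ℝ κ)) :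
    Pool.Agent.W695.KH.per E Ω = perimeter E Ω := by
  unfold perimeter Pool.Agent.W695.KH.per
  refine iSup_congr fun X => ?_
  refine iSup_congr_Prop ⟨fun h => ⟨h.1, h.2.1, h.2.2.1, h.2.2.2⟩,
    fun h => ⟨h.diff, h.comp, h.sub, h.le⟩⟩ fun _ => rfl

end defs

theorem en_of {r N : ℕ} {S : Fin r → Euc N → ℝ} (h : Energies S) : Pool.Agent.U405.KE.En S :=
  ⟨h.convex, h.nonneg, h.bdd⟩

theorem gibbs_lw {r m k q N : ℕ} (ψ : Coords m k q N) {S : Fin r → Euc N → ℝ} (hS : Energies S) (l : Fin r → ℝ) (a : Euc k) (b : Euc q)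
    (hl : ∀ j, 0 < l j) (hi : Integrable (gibbs ψ S l a b)) :
    Pool.Agent.N483.KM.LW (gibbs ψ S l a b) := by
  have hψs : Continuous ψ.symm := ψ.symm.toLinearMap.continuous_of_finiteDimensional
  have hc : Continuous (gibbs ψ S l a b) := by
    have h1 : ∀ j, Continuous (S j) := fun j => (hS.convex j).locallyLipschitz.continuous
    unfold gibbs uPart vPart
    fun_prop
  have hp : ∀ z, 0 < gibbs ψ S l a b z := fun z => Real.exp_pos _
  refine Pool.Agent.N483.KM.lw_of (fun z => (hp z).le) (fun x y t ht ht1 => ?_)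
    hc.upperSemicontinuous hi ?_
  · unfold gibbs uPart vPart
    rw [← Real.exp_mul, ← Real.exp_mul, ← Real.exp_add]
    refine Real.exp_le_exp.2 ?_
    have h1 : ∑ j, l j * S j ((1 - t) • x + t • y) ≤
        ∑ j, ((1 - t) * (l j * S j x) + t * (l j * S j y)) := by
      refine Finset.sum_le_sum fun j _ => ?_
      have h2 := (hS.convex j).2 (mem_univ x) (mem_univ y) (by linarith : 0 ≤ 1 - t) ht.le
        (by ring)
      simp only [smul_eq_mul] at h2
      have h3 := mul_le_mul_of_nonneg_left h2 (hl j).le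
      linarith
    rw [Finset.sum_add_distrib, ← Finset.mul_sum, ← Finset.mul_sum] at h1
    rw [map_add, map_smul, map_smul, Prod.snd_add, Prod.smul_snd, Prod.smul_snd, Prod.snd_add,
      Prod.fst_add, Prod.smul_snd, Prod.smul_snd, Prod.smul_fst, Prod.smul_fst, inner_add_right,
      inner_smul_right, inner_smul_right, inner_add_right, inner_smul_right, inner_smul_right]
    nlinarith
  · rw [integral_pos_iff_support_of_nonneg (fun z => (hp z).le) hi]
    have h1 : Function.support (gibbs ψ S l a b) = univ := by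
      ext z
      simp [(hp z).ne']
    rw [h1]
    exact NeZero.pos _

theorem can_of {A : ℝ → ℝ} {r m k q N : ℕ} {ψ : Coords m k q N}
    {S : Fin r → Euc N → ℝ} (hS : Energies S) (h : Canonical A ψ S) :
    Pool.Agent.U405.KE.Ca3 A ψ S := by
  intro l a b hl
  obtain ⟨h1, h2⟩ := h l a b hl
  have h3 := gibbs_lw ψ hS l a b hl h1
  exact ⟨h3.adm, (Pool.Agent.N483.KM.wpm_iff h3.adm).1 h2⟩

theorem mic_of {A : ℝ → ℝ} {r m k q N : ℕ} {ψ : Coords m k q N}
    {S : Fin r → Euc N → ℝ} (hS : Energies S) (h : Microcanonical A ψ S) :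
    Pool.Agent.U405.KE.Mi3 A ψ S := by
  intro s u v hx
  have hE := Pool.Agent.U405.KE.sec_en ψ (LinearEquiv.ofFinrankEq (Euc m × Euc k) (Euc (m + k))
    (by simp)) (en_of hS) v
  have h1 := h s u v hx
  have h2 := Pool.Agent.U405.KE.lv_compact hE (ψ := LinearEquiv.ofFinrankEq (Euc m × Euc k)
    (Euc (m + k)) (by simp)) s u
  have h3 := Pool.Agent.U405.KE.lv_int hE (ψ := LinearEquiv.ofFinrankEq (Euc m × Euc k)
    (Euc (m + k)) (by simp)) (e := s) (u := u)
  have h4 : Pool.Agent.U405.KE.lv (LinearEquiv.ofFinrankEq (Euc m × Euc k)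
      (Euc (m + k)) (by simp)) (Pool.Agent.U405.KE.sec ψ (LinearEquiv.ofFinrankEq
      (Euc m × Euc k) (Euc (m + k)) (by simp)) S v) s u = {x | ∀ j, S j (ψ (x, u, v)) ≤ s j} := by
    ext x
    simp [Pool.Agent.U405.KE.lv, Pool.Agent.U405.KE.sec]
  rw [h4] at h2 h3
  have h5 : (interior {x | ∀ j, S j (ψ (x, u, v)) ≤ s j}).Nonempty := by
    refine h3 ?_
    obtain ⟨x, hx⟩ := hx
    refine ⟨x, fun j => ?_⟩
    simpa [Pool.Agent.U405.KE.sec] using hx j
  have hA := Pool.Agent.Y506.PV.adm_ind _ h2.measurableSet h2.isBounded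
    (Pool.Agent.Y506.PV.vol_pos h5)
  have h6 := Pool.Agent.N483.KM.wpm_iff (A := A) hA
  rw [Pool.Agent.Y506.PV.pm_ind _ h2.measurableSet] at h6
  exact h6.1 h1

theorem affine_eq {m n : ℕ} (T : Euc m →ᵃ[ℝ] Euc n) (K : Set (Euc m)) :
    T '' K = (fun x => T 0 + T.linear x) '' K := by
  refine image_congr fun x _ => ?_
  have h := T.map_vadd 0 x
  rw [vadd_eq_add, add_zero] at h
  rw [h, vadd_eq_add, add_comm]

theorem star_of (A : ℝ → ℝ) (r k q p : ℕ) : ∃ c : ℝ, 0 < c ∧ ∀ (n n' : ℕ) (K : Set (Euc n))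
    (T : Euc n →ᵃ[ℝ] Euc n'), EnergyBody A r k q K → n ≤ n' + p → Function.Surjective T →
    IsCompact (T '' K) ∧ Convex ℝ (T '' K) ∧ (interior (T '' K)).Nonempty ∧
    Pool.Agent.Y506.RG.Star c (Pool.Agent.Y506.PV.ind (T '' K)) := by
  obtain ⟨A', H⟩ := Pool.Agent.U405.KE.body_kmw A r k q
  obtain ⟨c, hc, Hc⟩ := Pool.Agent.U405.KE.img_star A' p
  refine ⟨c, hc, ?_⟩
  rintro n n' K T ⟨m, N, ψ, e, S, v, D, hm, hS, hor, hD, hnd, hK, hb⟩ hn hT
  have hor' : Pool.Agent.U405.KE.Ca3 A ψ S ∨ Pool.Agent.U405.KE.Mi3 A ψ S :=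
    hor.imp (can_of hS) (mic_of hS)
  rw [hK] at hb
  obtain ⟨k1, k2, k3, k4⟩ := H m n N ψ e S v D hm (en_of hS) hor' hD.closed hD.convex hD.down hb
    hnd
  have h5 := Hc n n' _ T.linear (T 0) k1 k2 k3 k4 hn (by rwa [AffineMap.linear_surjective_iff])
  rw [← affine_eq] at h5
  rw [hK]
  exact h5

/-- from the functional inequality to central sections -/
theorem hyper_of : ∀ c : ℝ, 0 < c → ∃ C : ℝ, 0 < C ∧ ∀ (n : ℕ) (P : Set (Euc n)), 1 ≤ n →
    IsCompact P → Convex ℝ P → (interior P).Nonempty →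
    Pool.Agent.Y506.RG.Star c (Pool.Agent.Y506.PV.ind P) → (∀ x ∈ P, -x ∈ P) →
    HyperplaneBound C (interior P) := by
  intro c hc
  obtain ⟨C, hC, H'⟩ := Pool.Agent.Y151.PV.hyp
  refine ⟨C * c, by positivity, fun n P hn h1 h2 h3 h4 hs => ?_⟩
  have hcl : closure (interior P) = P := by
    rw [h2.closure_interior_eq_closure_of_nonempty_interior h3, h1.isClosed.closure_eq]
  have hsi : ∀ x ∈ interior P, -x ∈ interior P := by
    intro x hx
    have hop : IsOpen ((fun y => -y) ⁻¹' interior P) := isOpen_interior.preimage continuous_neg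
    have hsub : (fun y => -y) ⁻¹' interior P ⊆ P := by
      intro y hy
      have := hs _ (interior_subset hy)
      rwa [neg_neg] at this
    exact interior_maximal hsub hop (by simpa using hx)
  have h0 : (0 : Euc n) ∈ interior P := by
    obtain ⟨x, hx⟩ := h3
    have h := h2.interior hx (hsi x hx) (by norm_num : (0 : ℝ) ≤ 1 / 2)
      (by norm_num : (0 : ℝ) ≤ 1 / 2) (by norm_num)
    rwa [smul_neg, add_neg_cancel] at h
  obtain ⟨a, ha, h⟩ := H' n hn (interior P) isOpen_interior h2.interior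
    (h1.isBounded.subset interior_subset) h0 hsi c hc (by rw [hcl]; exact h4)
  refine ⟨a, ha, fun E hE hEΩ hvol => ?_⟩
  rw [← perimeter_eq]
  by_cases hp : Pool.Agent.W695.KH.per E (interior P) = ⊤
  · rw [hp, ENNReal.mul_top (ENNReal.ofReal_pos.2 (by positivity)).ne']
    exact le_top
  · refine (h E hE hEΩ hvol _ (Pool.Agent.W695.KH.perLe_toReal E _ hp)).trans (le_of_eq ?_)
    rw [ENNReal.ofReal_mul (by positivity), ENNReal.ofReal_toReal hp]

/-- **The hyperplane conjecture for bodies given by functions of few energies.** For all `A : ℝ → ℝ`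
and `r, k, q, p` there is a constant `C > 0` such that for all bodies `K = {y | (S(y), u(y)) ∈ D} ⊂ ℝⁿ` of the
class `EnergyBody A r k q` and all affine maps `T` of `ℝⁿ` onto `ℝ^{n'}`, `1 ≤ n'`, `n ≤ n' + p`, such that
`T K` is symmetric, the interior `Ω` of `T K` has a central hyperplane section `Ω ∩ a^⊥` with
`H_{n'-1}(Ω ∩ a^⊥) ≤ C P(E; Ω)` for every measurable `E ⊆ Ω` with `|E| = |Ω| / 2`. -/
theorem result : ∀ (A : ℝ → ℝ) (r k q p : ℕ), ∃ C : ℝ, 0 < C ∧
    ∀ (n n' : ℕ) (K : Set (Euc n)) (T : Euc n →ᵃ[ℝ] Euc n'), 1 ≤ n' → EnergyBody A r k q K →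
    n ≤ n' + p → Function.Surjective T → (∀ x ∈ T '' K, -x ∈ T '' K) →
    HyperplaneBound C (interior (T '' K)) := by
  intro A r k q p
  obtain ⟨c, hc, H⟩ := star_of A r k q p
  obtain ⟨C, hC, H'⟩ := hyper_of c hc
  refine ⟨C, hC, fun n n' K T hn' hK hn hT hs => ?_⟩
  obtain ⟨h1, h2, h3, h4⟩ := H n n' K T hK hn hT
  exact H' n' _ hn' h1 h2 h3 h4 hs

end Pool.Agent.Results.MP_dc1397_gt.FunctionsOfEnergies
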