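import Pool.Agent.H756.GN.Asm

/-!
# The hyperplane form of the KLS conjecture for the unit balls of graph norms

Q1, with an absolute constant, for the symmetric convex bodies
`Ω = {x ∈ ℝⁿ | |x_i| < 1 for all i, |x_i| + |x_j| < 1 for all edges ij of G}`, `G` an arbitrary graph on
the coordinates (loops are allowed, a loop at `i` gives `|x_i| < 1/2`): some coordinate hyperplane
`x_i = 0` cuts `Ω` in a section of area at most a constant times the perimeter in `Ω` of every
measurable set of half the volume (whether isoperimetric or not). The positive part of `Ω` is the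
fractional stable set polytope of `G`. For the graph without edges `Ω` is the cube; for the complete
graph it is the set where the sum of the two largest `|x_i|` is less than one. The bodies are
not sums `∑ V_i(ℓ_i(x)) ≤ E` with few terms, and have no symmetries besides the changes of signs in
general.

Method. (1) The positive part is a signed order polytope: its inequalities `x_i ≤ 1 - x_j` compare
signed coordinates relative to the centre `1/2`. Its Poincare constant is at most `1/4` by the
path coupling of the project SB (`MP_6d896a_gt.SignedOrderConditioned`, this team). (2) From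
the positive part to `Ω`: the odd part of a function in one coordinate is controlled on lines
(Hardy), the even part in all coordinates by (1); Poincare constant at most `3/4`. (3) `Ω` contains a
cube of volume one, so `E |x|² ≥ n / (2 π e)` and some `E x_i² ≥ 1/20`. (4) From Poincare's inequality
to the perimeter, and the area of central sections, as in the starting files.

The lemmas were proved by helpers 756, 891, 99, 165, 139 and by the authors of the project SB
(helpers 756, 928, 312, 399, 741, 354, 411).
-/

set_option autoImplicit false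

namespace Pool.Agent.Results.MP_dc1397_gt.GraphNorms

open MeasureTheory Set
open scoped ENNReal InnerProductSpace

/-- Euclidean space of dimension `n` -/
abbrev Euc (n : ℕ) : Type := EuclideanSpace ℝ (Fin n)

/-- the body `{x | |x_i| < 1 for all i, |x_i| + |x_j| < 1 if G i j}` -/
def graphBall {n : ℕ} (G : Fin n → Fin n → Prop) : Set (Euc n) :=
  {x | (∀ i, |x i| < 1) ∧ ∀ i j, G i j → |x i| + |x j| < 1}

/-- the Lebesgue measure of a Euclidean space -/
noncomputable def lebesgue (F : Type) [NormedAddCommGroup F] [InnerProductSpace ℝ F]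
    [FiniteDimensional ℝ F] [MeasurableSpace F] [BorelSpace F] : Measure F := volume

/-- the Lebesgue measure (of the Euclidean space `W`) of the section `Ω ∩ W` by a subspace `W` -/
noncomputable def areaIn {F : Type} [NormedAddCommGroup F] [InnerProductSpace ℝ F]
    [FiniteDimensional ℝ F] [MeasurableSpace F] [BorelSpace F] (W : Submodule ℝ F) (Ω : Set F) :
    ℝ≥0∞ := lebesgue W {y : W | (y : F) ∈ Ω}

section defs

variable {κ : Type} [Fintype κ]

open Classical in
/-- divergence of a vector field on `ℝ^κ` -/
noncomputable def divergence (X : EuclideanSpace ℝ κ → EuclideanSpace ℝ κ)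
    (x : EuclideanSpace ℝ κ) : ℝ :=
  ∑ i, fderiv ℝ X x (EuclideanSpace.single i 1) i

/-- `C¹` vector fields with compact support in `Ω` and `‖X‖ ≤ 1` -/
structure Test (Ω : Set (EuclideanSpace ℝ κ)) (X : EuclideanSpace ℝ κ → EuclideanSpace ℝ κ) :
    Prop where
  diff : ContDiff ℝ 1 X
  comp : HasCompactSupport X
  sub : tsupport X ⊆ Ω
  le : ∀ x, ‖X x‖ ≤ 1

/-- the (De Giorgi) perimeter `P(E; Ω)` of `E` relative to the open set `Ω` -/
noncomputable def perimeter (E Ω : Set (EuclideanSpace ℝ κ)) : ℝ≥0∞ :=
  ⨆ (X : EuclideanSpace ℝ κ → EuclideanSpace ℝ κ) (_ : Test Ω X),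
    ENNReal.ofReal (∫ x in E, divergence X x)

/-- the area (Lebesgue measure in the hyperplane `a^⊥`) of the central section of `Ω` by `a^⊥` -/
noncomputable def sectionArea (Ω : Set (EuclideanSpace ℝ κ)) (a : EuclideanSpace ℝ κ) : ℝ≥0∞ :=
  areaIn (Submodule.span ℝ {a})ᗮ Ω

/-- some central hyperplane section has area at most `C P(E; Ω)` for every measurable `E ⊆ Ω` with
`|E| = |Ω| / 2` -/
def HyperplaneBound (C : ℝ) (Ω : Set (EuclideanSpace ℝ κ)) : Prop :=
  ∃ a : EuclideanSpace ℝ κ, a ≠ 0 ∧ ∀ E : Set (EuclideanSpace ℝ κ), MeasurableSet E → E ⊆ Ω →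
    volume E = volume Ω / 2 → sectionArea Ω a ≤ ENNReal.ofReal C * perimeter E Ω

/-- the perimeter is the one used in the proof -/
theorem perimeter_eq (E Ω : Set (EuclideanSpace ℝ κ)) :
    Pool.Agent.W695.KH.per E Ω = perimeter E Ω := by
  unfold perimeter Pool.Agent.W695.KH.per
  refine iSup_congr fun X => ?_
  refine iSup_congr_Prop ⟨fun h => ⟨h.1, h.2.1, h.2.2.1, h.2.2.2⟩,
    fun h => ⟨h.diff, h.comp, h.sub, h.le⟩⟩ fun _ => rfl

end defs

/-- **The hyperplane form of the KLS conjecture for graph norms.** There is an absolute constant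
`C > 0` such that for all `n ≥ 1` and all graphs `G` on the `n` coordinates the open convex set
`Ω = {x | |x_i| < 1, |x_i| + |x_j| < 1 if G i j}` is bounded and symmetric and has a central hyperplane
section `Ω ∩ a^⊥` with `H_{n-1}(Ω ∩ a^⊥) ≤ C P(E; Ω)` for every measurable `E ⊆ Ω` with
`|E| = |Ω| / 2`. -/
theorem result : ∃ C : ℝ, 0 < C ∧ ∀ (n : ℕ) (G : Fin n → Fin n → Prop), 1 ≤ n →
    IsOpen (graphBall G) ∧ Convex ℝ (graphBall G) ∧ Bornology.IsBounded (graphBall G) ∧
    (∀ x ∈ graphBall G, -x ∈ graphBall G) ∧ HyperplaneBound C (graphBall G) := by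
  obtain ⟨C, hC, H⟩ := Pool.Agent.H756.GN.main
  refine ⟨C, hC, fun n G hn => ⟨Pool.Agent.H756.GN.Om_open G, Pool.Agent.H756.GN.Om_convex G,
    Pool.Agent.H756.GN.Om_bdd G, Pool.Agent.H756.GN.Om_neg G, ?_⟩⟩
  have hOm : graphBall G = Pool.Agent.H756.GN.Om G := rfl
  obtain ⟨a, ha, h⟩ := H n hn G
  rw [← hOm] at h
  refine ⟨a, ha, fun E hE hEΩ hvol => ?_⟩
  rw [← perimeter_eq]
  by_cases hp : Pool.Agent.W695.KH.per E (graphBall G) = ⊤
  · rw [hp, ENNReal.mul_top (ENNReal.ofReal_pos.2 hC).ne']
    exact le_top
  · refine (h E hE hEΩ hvol _ (Pool.Agent.W695.KH.perLe_toReal E _ hp)).trans (le_of_eq ?_)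
    rw [ENNReal.ofReal_mul hC.le, ENNReal.ofReal_toReal hp]

end Pool.Agent.Results.MP_dc1397_gt.GraphNorms
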