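import Pool.Agent.U959.LB.Fin

/-!
# The hyperplane conjecture of KLS for bodies of Lipschitz maps into the hyperbolic interval

Let `d` be a function of the pairs of indices `i, k < n` with values in `(0, ∞]` (for example a metric on
`{0, …, n-1}`). The body is the set of all maps `x : {0, …, n-1} → (-1, 1)` with

`|artanh x_i - artanh x_k| < d(i, k)` for all `i, k`,

the interior of the set of all maps which are 1-Lipschitz for `d` and the Hilbert (Cayley-Klein) metric
`|artanh s - artanh t|` of the interval `(-1, 1)`. It is open, bounded, convex and symmetric (`Domain`;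
convex because the time-`t` flow of the field `1 - s²`, `s ↦ (s + τ)/(1 + τ s)`, is a concave
function for `t > 0`). For `d = ∞` it is the cube; for small `d` it is a thin neighbourhood of the
diagonal; there are `n (n - 1) / 2` free parameters. We prove Q1 for all these bodies with a universal
constant: the section orthogonal to `(1, …, 1)` has area at most `C P(E; Ω)` for all measurable
`E ⊆ Ω` with `|E| = |Ω| / 2`.

Method. (1) In the coordinates `y_i = artanh x_i` the uniform measure of `Ω` becomes the measure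
with density `∏ (1 - tanh² y_i)` on a convex set, and the defect of midpoint log-concavity can be computed
exactly: with `m = tanh((a + b)/2)`, `z = tanh a` and `q = (z - m)² / (1 + m² - 2 m z)`,
`(1 - tanh² a)(1 - tanh² b) = (1 - m²)² (1 - q)²`. The Prekopa-Leindler inequality gives
`Var f ≤ (1/2) E ∑ (1 - x_i²) (∂_i f)²` on `Ω` (sharp for coordinates of the cube). (2) `Ω` is
invariant under the simultaneous flow of `1 - s²` in all coordinates; the change of variables gives
`Var (∑ x_i) = (1/2) E ∑ (1 - x_i²)`, and (1) for `f = x_i` gives `E (1 - x_i²) ≥ 2/3`. So the largest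
variance of a marginal is at least `1/3`, while the Poincare constant is at most `1/2`, whatever `d`.
(3) From the Poincare inequality to perimeters: theorems of the library (`S_BODL`, `S_perim`), and
the section through the centre is compared with the variance (`S_sec`).

The bodies are not sums of functions of blocks of bounded dimension, have no symmetries besides
`x ↦ -x` in general, and all pairs of coordinates may interact.
-/

set_option autoImplicit false

namespace Pool.Agent.Results.MP_dc1397_gt.LipschitzBodies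

open MeasureTheory Set
open scoped ENNReal InnerProductSpace

/-- Euclidean space of dimension `n` -/
abbrev Euc (n : ℕ) : Type := EuclideanSpace ℝ (Fin n)

/-- the body of all `x : {0, …, n-1} → (-1, 1)` with `|artanh x_i - artanh x_k| < d(i, k)` for all
`i, k` -/
def lipschitzBody {n : ℕ} (d : Fin n → Fin n → ℝ≥0∞) : Set (Euc n) :=
  {x | (∀ i, |x i| < 1) ∧ ∀ i k, ENNReal.ofReal |Real.artanh (x i) - Real.artanh (x k)| < d i k}

/-- nonempty open bounded convex sets which are symmetric about the origin -/
structure Domain {n : ℕ} (Ω : Set (Euc n)) : Prop where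
  nonempty : Ω.Nonempty
  isOpen : IsOpen Ω
  bounded : Bornology.IsBounded Ω
  convex : Convex ℝ Ω
  symmetric : ∀ x ∈ Ω, -x ∈ Ω

/-- the vector `(1, …, 1)` -/
noncomputable def ones (n : ℕ) : Euc n := WithLp.toLp 2 fun _ => 1

/-- the Lebesgue measure of a Euclidean space -/
noncomputable def lebesgue (F : Type) [NormedAddCommGroup F] [InnerProductSpace ℝ F]
    [FiniteDimensional ℝ F] [MeasurableSpace F] [BorelSpace F] : Measure F := volume

/-- the Lebesgue measure (of the Euclidean space `W`) of the section `Ω ∩ W` by a subspace `W` -/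
noncomputable def areaIn {F : Type} [NormedAddCommGroup F] [InnerProductSpace ℝ F]
    [FiniteDimensional ℝ F] [MeasurableSpace F] [BorelSpace F] (W : Submodule ℝ F) (Ω : Set F) :
    ℝ≥0∞ := lebesgue W {y : W | (y : F) ∈ Ω}

/-- the area (Lebesgue measure in the hyperplane `a^⊥`) of the central section of `Ω` by `a^⊥` -/
noncomputable def sectionArea {n : ℕ} (Ω : Set (Euc n)) (a : Euc n) : ℝ≥0∞ :=
  areaIn (Submodule.span ℝ {a})ᗮ Ω

/-- divergence of a vector field on `ℝⁿ` -/
noncomputable def divergence {n : ℕ} (X : Euc n → Euc n) (x : Euc n) : ℝ :=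
  ∑ i, fderiv ℝ X x (EuclideanSpace.single i 1) i

/-- `C¹` vector fields with compact support in `Ω` and `‖X‖ ≤ 1` -/
structure Test {n : ℕ} (Ω : Set (Euc n)) (X : Euc n → Euc n) : Prop where
  diff : ContDiff ℝ 1 X
  comp : HasCompactSupport X
  sub : tsupport X ⊆ Ω
  le : ∀ x, ‖X x‖ ≤ 1

/-- the (De Giorgi) perimeter `P(E; Ω)` of `E` relative to the open set `Ω` -/
noncomputable def perimeter {n : ℕ} (E Ω : Set (Euc n)) : ℝ≥0∞ :=
  ⨆ (X : Euc n → Euc n) (_ : Test Ω X), ENNReal.ofReal (∫ x in E, divergence X x)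

theorem perLe_toReal {n : ℕ} {E Ω : Set (Euc n)} (hp : perimeter E Ω ≠ ⊤) :
    Pool.Agent.W695.KH.PerLe Ω E (perimeter E Ω).toReal := by
  intro X h1 h2 h3 h4
  have hX : Test Ω X := ⟨h1, h2, h3, h4⟩
  have e : ∀ x, Pool.Agent.W695.KH.dv X x = divergence X x := by
    intro x
    unfold Pool.Agent.W695.KH.dv divergence
    refine Finset.sum_congr rfl fun i _ => ?_
    have h : ∀ a b : DecidableEq (Fin n), @EuclideanSpace.single (Fin n) ℝ _ a i 1 =
        @EuclideanSpace.single (Fin n) ℝ _ b i 1 := by
      intro a b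
      rw [Subsingleton.elim a b]
    exact congrArg (fun v => fderiv ℝ X x v i) (h _ _)
  have h5 : ENNReal.ofReal (∫ x in E, divergence X x) ≤ perimeter E Ω :=
    le_iSup₂ (f := fun (X : Euc n → Euc n) (_ : Test Ω X) =>
      ENNReal.ofReal (∫ x in E, divergence X x)) X hX
  simp_rw [e]
  exact (ENNReal.ofReal_le_iff_le_toReal hp).1 h5

theorem domain {n : ℕ} (d : Fin n → Fin n → ℝ≥0∞) (hd : ∀ i k, 0 < d i k) :
    Domain (lipschitzBody d) where
  nonempty := ⟨0, Pool.Agent.U959.LB.lip_zero d hd⟩
  isOpen := (Pool.Agent.U959.LB.lip_HF d hd).op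
  bounded := (Pool.Agent.U959.LB.lip_HF d hd).bdd
  convex := (Pool.Agent.U959.LB.lip_HF d hd).cv
  symmetric := Pool.Agent.U959.LB.lip_symm d

theorem span_ones {n : ℕ} (hn : 1 ≤ n) :
    Submodule.span ℝ {ones n} = Submodule.span ℝ {Pool.Agent.U959.LB.dir n} := by
  have hn0 : (0 : ℝ) < n := by exact_mod_cast hn
  have h1 : Real.sqrt n ≠ 0 := (Real.sqrt_pos.2 hn0).ne'
  have e : Pool.Agent.U959.LB.dir n = (Real.sqrt n)⁻¹ • ones n := by
    ext i
    show (Real.sqrt n)⁻¹ = (Real.sqrt n)⁻¹ * 1
    rw [mul_one]
  rw [e]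
  exact (Submodule.span_singleton_smul_eq (isUnit_iff_ne_zero.2 (inv_ne_zero h1)) _).symm

/-- **Lipschitz bodies.** There is a constant `C > 0` such that for all `n ≥ 1` and all functions `d` of
pairs of indices with values in `(0, ∞]` the set `Ω = lipschitzBody d` is a symmetric open bounded convex
set (`Domain`) and `H_{n-1}(Ω ∩ (1, …, 1)^⊥) ≤ C P(E; Ω)` for every measurable `E ⊆ Ω` with
`|E| = |Ω| / 2`. -/
theorem result : ∃ C : ℝ, 0 < C ∧ ∀ (n : ℕ) (d : Fin n → Fin n → ℝ≥0∞), 1 ≤ n →
    (∀ i k, 0 < d i k) → Domain (lipschitzBody d) ∧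
    ∀ E : Set (Euc n), MeasurableSet E → E ⊆ lipschitzBody d →
      volume E = volume (lipschitzBody d) / 2 →
      sectionArea (lipschitzBody d) (ones n) ≤ ENNReal.ofReal C * perimeter E (lipschitzBody d) := by
  obtain ⟨C, hC, H⟩ := Pool.Agent.U959.LB.hyp
  refine ⟨C, hC, fun n d hn hd => ⟨domain d hd, fun E hE hEΩ hvol => ?_⟩⟩
  by_cases hp : perimeter E (lipschitzBody d) = ⊤
  · rw [hp, ENNReal.mul_top (ENNReal.ofReal_pos.2 hC).ne']
    exact le_top
  · have h1 := H n (lipschitzBody d) hn (Pool.Agent.U959.LB.lip_HF d hd)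
      (Pool.Agent.U959.LB.lip_zero d hd) (Pool.Agent.U959.LB.lip_symm d) E hE hEΩ hvol _
      (perLe_toReal hp)
    rw [ENNReal.ofReal_mul hC.le, ENNReal.ofReal_toReal hp] at h1
    have e : sectionArea (lipschitzBody d) (ones n) =
        Pool.Agent.W695.KH.sec (lipschitzBody d) (Pool.Agent.U959.LB.dir n) := by
      unfold sectionArea areaIn lebesgue Pool.Agent.W695.KH.sec
      rw [span_ones hn]
    rw [e]
    exact h1

end Pool.Agent.Results.MP_dc1397_gt.LipschitzBodies
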