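import Pool.Agent.U405.KE.Q

/-!
# The hyperplane conjecture of KLS for bodies given by few functions with pinched Hessians

Q1 for all symmetric images, under affine maps of `ℝⁿ` onto `ℝ^{n'}`, `n ≤ n' + p`, of the following convex
bodies `K ⊂ ℝⁿ` (in particular for all symmetric bodies of this form):

`K = {y ∈ ℝⁿ | (S_1(y), …, S_r(y), U y) ∈ D}`

* `S_1, …, S_r ≥ 0` are functions on `ℝⁿ` with pinched Hessians: there are positive semidefinite
  quadratic forms `Q_j(z) = ‖B_j z‖²` (with only `0` as common zero) such that `S_j - Q_j / 2` and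
  `Λ Q_j / 2 - S_j` are convex, that is `D² Q_j / 2 ≤ D² S_j ≤ Λ D² Q_j / 2` (`Pinched`);
* `U` consists of `k < n` independent linear functionals;
* `D ⊂ ℝ^r × ℝ^k` is closed and convex, and `(s', u) ∈ D`, `s ≤ s'` implies `(s, u) ∈ D` (`Region`);

`K` has to be bounded, with a point `y` and `s` such that `S_j(y) < s_j` for all `j` and `(s, U y)` is an
interior point of `D`. There is no other condition: no symmetry, no product structure, no condition on
the position of the forms `Q_j` with respect to each other. The constant depends only on `Λ`, `r`, `k`, `p`.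

Examples.

* `S_j(y) = ‖B_j y - b_j‖² / 2`, `Λ = 1` (theorem `ellipsoids`): intersections of `r` ellipsoids or elliptic
  cylinders with arbitrary axes and centres, cut by `k` linear inequalities; the feasible sets of convex
  quadratic programs with `r` quadratic and `k` linear constraints; and sets like
  `{∑_j ‖B_j y - b_j‖^p ≤ 1}`, `p ≥ 2`, or `{Φ(‖B_1 y‖², …, ‖B_r y‖², U y) ≤ 1}`, `Φ` convex and nondecreasing
  in the first `r` variables.
* Microcanonical ensembles of systems with interactions: `S(y) = ∑_e V_e(y_{e'} - y_{e''}) + ∑_i W_i(y_i)`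
  on any finite graph (gradient interface models), with `a ≤ V'' ≤ Λ a` (the weights `a_e`, `a_i ≥ 0` may depend on the
  edge or vertex); `K = {S ≤ e}`, or several such energies with different weights on the same or on
  different graphs, and `k` linear conditions (total magnetisation, …). In the starting files the energies
  are sums of functions of blocks (`FewInequalities`: systems without interactions), or the
  inequality for the Gibbs densities is an assumption (`GibbsLevelSets`, and our hand-in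
  `FunctionsOfEnergies`). Here nothing is assumed.
* Restrictions of such functions to subspaces of any dimension have the same property, so all
  sections of these bodies by affine subspaces (with a strict point) are included.

For `r = 1`, `k = 0` the body `{S ≤ e}` is 2-uniformly convex, and for such bodies related results are known
(Milman and Sodin, An isoperimetric inequality for uniformly log-concave measures and uniformly convex
bodies, J. Funct. Anal. 2008; Klartag and E. Milman, On volume distribution in 2-convex bodies, Israel J. Math.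
2008). An intersection of two such bodies with different forms is not uniformly convex for
its norm, with a bound which depends on `Λ` only, and its volume may be exponentially smaller.

Method. (1) The Gibbs densities `exp (-V)`, `V = ∑ l_j S_j + ℓ`, `ℓ` linear, satisfy, with `Q = ∑ l_j Q_j`, the Poincare
inequality `Var f ≤ E Q*(∇ f)` (Brascamp-Lieb), `Q*` the dual form; and, by the Cramer-Rao inequality,
`Q*(θ) ≤ Λ Var ⟪θ, z⟫` for all `θ` (proved by comparison of the density with its translates, so no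
differentiability is used). So the Poincare constant of every linear image is at most `Λ ‖Cov‖`. (2) From
these canonical ensembles to the microcanonical ones, the uniform measures on
`{x | S_j(x, u) ≤ s_j for all j}`: supporting functional of the logarithm of the volume, a convex body over
the Gibbs density, and the theorem on large sections (starting library). (3) From the microcanonical
ensembles to `K`: our hand-in `FunctionsOfEnergies`. (4) The images, and the
passage from the concentration of all linear images to central sections, are those of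
`ImagesOfSections`.
-/

set_option autoImplicit false

namespace Pool.Agent.Results.MP_dc1397_gt.PinchedEnergies

open MeasureTheory Set
open scoped ENNReal InnerProductSpace

/-- Euclidean space of dimension `n` -/
abbrev Euc (n : ℕ) : Type := EuclideanSpace ℝ (Fin n)

/-- Functions `S_1, …, S_r ≥ 0` on `ℝⁿ` with pinched Hessians: `S_j` minus the quadratic form
`‖B_j z‖² / 2` is convex, and `Λ ‖B_j z‖² / 2` minus `S_j` is convex (for `C²` functions:
`B_jᵀ B_j ≤ D² S_j ≤ Λ B_jᵀ B_j` everywhere). The positive semidefinite forms `‖B_j z‖²` may be degenerate,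
but `0` is their only common zero. -/
structure Pinched (Λ : ℝ) {r n : ℕ} (S : Fin r → Euc n → ℝ) (B : Fin r → Euc n →ₗ[ℝ] Euc n) :
    Prop where
  nonneg : ∀ j z, 0 ≤ S j z
  lower : ∀ j, ConvexOn ℝ univ fun z => S j z - ‖B j z‖ ^ 2 / 2
  upper : ∀ j, ConvexOn ℝ univ fun z => Λ / 2 * ‖B j z‖ ^ 2 - S j z
  inj : ∀ z, (∀ j, B j z = 0) → z = 0

/-- closed convex sets which contain with `(s', u)` all `(s, u)`, `s ≤ s'` -/
structure Region {r k : ℕ} (D : Set ((Fin r → ℝ) × Euc k)) : Prop where
  closed : IsClosed D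
  convex : Convex ℝ D
  down : ∀ s s' u, (s', u) ∈ D → (∀ j, s j ≤ s' j) → (s, u) ∈ D

/-- the set `{y | (S_1(y), …, S_r(y), U y) ∈ D}` -/
def body {r k n : ℕ} (S : Fin r → Euc n → ℝ) (U : Euc n →ₗ[ℝ] Euc k)
    (D : Set ((Fin r → ℝ) × Euc k)) : Set (Euc n) := {y | ((fun j => S j y), U y) ∈ D}

/-- there are a point `y` and `s` such that `S_j(y) < s_j` and `(s, U y)` is an interior point of `D` -/
def StrictPoint {r k n : ℕ} (S : Fin r → Euc n → ℝ) (U : Euc n →ₗ[ℝ] Euc k)
    (D : Set ((Fin r → ℝ) × Euc k)) : Prop :=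
  ∃ (y : Euc n) (s : Fin r → ℝ), (∀ j, S j y < s j) ∧ (s, U y) ∈ interior D

/-- Bounded sets `K = {y ∈ ℝⁿ | (S_1(y), …, S_r(y), U y) ∈ D}`, with a `StrictPoint`, for `r` functions
`S_j` with pinched Hessians and `k < n` independent linear functionals `U`. -/
def PinchedBody (Λ : ℝ) (r k : ℕ) {n : ℕ} (K : Set (Euc n)) : Prop :=
  ∃ (U : Euc n →ₗ[ℝ] Euc k) (S : Fin r → Euc n → ℝ) (B : Fin r → Euc n →ₗ[ℝ] Euc n)
    (D : Set ((Fin r → ℝ) × Euc k)), k < n ∧ Function.Surjective U ∧ Pinched Λ S B ∧ Region D ∧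
    StrictPoint S U D ∧ K = body S U D ∧ Bornology.IsBounded K

/-- the Lebesgue measure of a Euclidean space -/
noncomputable def lebesgue (F : Type) [NormedAddCommGroup F] [InnerProductSpace ℝ F]
    [FiniteDimensional ℝ F] [MeasurableSpace F] [BorelSpace F] : Measure F := volume

/-- the Lebesgue measure (of the Euclidean space `W`) of the section `Ω ∩ W` by a subspace `W` -/
noncomputable def areaIn {F : Type} [NormedAddCommGroup F] [InnerProductSpace ℝ F]
    [FiniteDimensional ℝ F] [MeasurableSpace F] [BorelSpace F] (W : Submodule ℝ F) (Ω : Set F) :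
    ℝ≥0∞ := lebesgue W {y : W | (y : F) ∈ Ω}

section defs

variable {κ : Type} [Fintype κ]

open Classical in
/-- divergence of a vector field on `ℝ^κ` -/
noncomputable def divergence (X : EuclideanSpace ℝ κ → EuclideanSpace ℝ κ)
    (x : EuclideanSpace ℝ κ) : ℝ :=
  ∑ i, fderiv ℝ X x (EuclideanSpace.single i 1) i

/-- `C¹` vector fields with compact support in `Ω` and `‖X‖ ≤ 1` -/
structure Test (Ω : Set (EuclideanSpace ℝ κ)) (X : EuclideanSpace ℝ κ → EuclideanSpace ℝ κ) :
    Prop where
  diff : ContDiff ℝ 1 X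
  comp : HasCompactSupport X
  sub : tsupport X ⊆ Ω
  le : ∀ x, ‖X x‖ ≤ 1

/-- the (De Giorgi) perimeter `P(E; Ω)` of `E` relative to the open set `Ω` -/
noncomputable def perimeter (E Ω : Set (EuclideanSpace ℝ κ)) : ℝ≥0∞ :=
  ⨆ (X : EuclideanSpace ℝ κ → EuclideanSpace ℝ κ) (_ : Test Ω X),
    ENNReal.ofReal (∫ x in E, divergence X x)

/-- the area (Lebesgue measure in the hyperplane `a^⊥`) of the central section of `Ω` by `a^⊥` -/
noncomputable def sectionArea (Ω : Set (EuclideanSpace ℝ κ)) (a : EuclideanSpace ℝ κ) : ℝ≥0∞ :=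
  areaIn (Submodule.span ℝ {a})ᗮ Ω

/-- some central hyperplane section has area at most `C P(E; Ω)` for every measurable `E ⊆ Ω` with
`|E| = |Ω| / 2` -/
def HyperplaneBound (C : ℝ) (Ω : Set (EuclideanSpace ℝ κ)) : Prop :=
  ∃ a : EuclideanSpace ℝ κ, a ≠ 0 ∧ ∀ E : Set (EuclideanSpace ℝ κ), MeasurableSet E → E ⊆ Ω →
    volume E = volume Ω / 2 → sectionArea Ω a ≤ ENNReal.ofReal C * perimeter E Ω

/-- the perimeter is the one used in the proof -/
theorem perimeter_eq (E Ω : Set (EuclideanSpace ℝ κ)) :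
    Pool.Agent.W695.KH.per E Ω = perimeter E Ω := by
  unfold perimeter Pool.Agent.W695.KH.per
  refine iSup_congr fun X => ?_
  refine iSup_congr_Prop ⟨fun h => ⟨h.1, h.2.1, h.2.2.1, h.2.2.2⟩,
    fun h => ⟨h.diff, h.comp, h.sub, h.le⟩⟩ fun _ => rfl

end defs

theorem pin_of {Λ : ℝ} {r n : ℕ} {S : Fin r → Euc n → ℝ} {B : Fin r → Euc n →ₗ[ℝ] Euc n}
    (h : Pinched Λ S B) : Pool.Agent.U405.KE.Pin Λ S B :=
  ⟨h.nonneg, h.lower, h.upper, h.inj⟩

/-- quadratic functions are pinched, `Λ = 1` -/
theorem pinched_quadratic {r n : ℕ} (B : Fin r → Euc n →ₗ[ℝ] Euc n) (b : Fin r → Euc n)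
    (hB : ∀ z, (∀ j, B j z = 0) → z = 0) : Pinched 1 (fun j z => ‖B j z - b j‖ ^ 2 / 2) B := by
  have e1 : ∀ j z, ‖B j z - b j‖ ^ 2 = ‖B j z‖ ^ 2 - 2 * ⟪B j z, b j⟫_ℝ + ‖b j‖ ^ 2 := fun j z =>
    norm_sub_sq_real _ _
  have e2 : ∀ (j : Fin r) (x y : Euc n) (s t : ℝ),
      ⟪B j (s • x + t • y), b j⟫_ℝ = s * ⟪B j x, b j⟫_ℝ + t * ⟪B j y, b j⟫_ℝ := fun j x y s t => by
    rw [map_add, map_smul, map_smul, inner_add_left, real_inner_smul_left, real_inner_smul_left]
  refine ⟨fun j z => by positivity, fun j => ⟨convex_univ, fun x _ y _ s t hs ht hst => ?_⟩,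
    fun j => ⟨convex_univ, fun x _ y _ s t hs ht hst => ?_⟩, hB⟩
  · simp only [e1, e2, smul_eq_mul]
    refine le_of_eq ?_
    have h1 : t = 1 - s := by linarith
    rw [h1]
    ring
  · simp only [e1, e2, smul_eq_mul]
    refine le_of_eq ?_
    have h1 : t = 1 - s := by linarith
    rw [h1]
    ring

/-- Intersections of `r` ellipsoids or elliptic cylinders `‖B_j y - b_j‖² ≤ ρ_j` with arbitrary centres
and axes, and with constraints `U y ∈ C` for `k` linear functionals: feasible sets of convex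
quadratic programs with few constraints. -/
theorem ellipsoids {r k n : ℕ} (B : Fin r → Euc n →ₗ[ℝ] Euc n) (b : Fin r → Euc n)
    (ρ : Fin r → ℝ) (U : Euc n →ₗ[ℝ] Euc k) (C : Set (Euc k)) (hk : k < n)
    (hU : Function.Surjective U) (hB : ∀ z, (∀ j, B j z = 0) → z = 0) (hC : IsClosed C)
    (hC' : Convex ℝ C) (hx : ∃ y, (∀ j, ‖B j y - b j‖ ^ 2 < ρ j) ∧ U y ∈ interior C) :
    PinchedBody 1 r k {y | (∀ j, ‖B j y - b j‖ ^ 2 ≤ ρ j) ∧ U y ∈ C} := by
  have hP := pinched_quadratic B b hB
  have hK : {y | (∀ j, ‖B j y - b j‖ ^ 2 ≤ ρ j) ∧ U y ∈ C} =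
      body (fun j z => ‖B j z - b j‖ ^ 2 / 2) U
        ({s : Fin r → ℝ | ∀ j, s j ≤ ρ j / 2} ×ˢ C) := by
    ext y
    simp only [body, Set.mem_ofPred_eq, Set.mem_prod]
    refine and_congr_left fun _ => forall_congr' fun j => ?_
    constructor <;> intro h <;> linarith
  have hcl : IsClosed {s : Fin r → ℝ | ∀ j, s j ≤ ρ j / 2} := by
    have e1 : {s : Fin r → ℝ | ∀ j, s j ≤ ρ j / 2} = Set.Iic fun j => ρ j / 2 := by
      ext s
      simp [Pi.le_def]
    rw [e1]
    exact isClosed_Iic
  have hcv : Convex ℝ {s : Fin r → ℝ | ∀ j, s j ≤ ρ j / 2} := by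
    have e1 : {s : Fin r → ℝ | ∀ j, s j ≤ ρ j / 2} = Set.Iic fun j => ρ j / 2 := by
      ext s
      simp [Pi.le_def]
    rw [e1]
    exact convex_Iic _
  refine ⟨U, _, B, _, hk, hU, hP, ⟨hcl.prod hC, hcv.prod hC', ?_⟩, ?_, hK, ?_⟩
  · rintro s s' u ⟨h1, h2⟩ h3
    exact ⟨fun j => (h3 j).trans (h1 j), h2⟩
  · obtain ⟨y, h1, h2⟩ := hx
    refine ⟨y, fun j => (‖B j y - b j‖ ^ 2 / 2 + ρ j / 2) / 2, fun j => ?_, ?_⟩
    · have := h1 j
      change ‖B j y - b j‖ ^ 2 / 2 < _
      linarith
    · rw [interior_prod_eq]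
      refine ⟨?_, h2⟩
      refine interior_maximal (s := {s : Fin r → ℝ | ∀ j, s j ≤ ρ j / 2})
        (t := {s : Fin r → ℝ | ∀ j, s j < ρ j / 2}) (fun s hs j => (hs j).le) ?_ fun j => ?_
      · have e1 : {s : Fin r → ℝ | ∀ j, s j < ρ j / 2} =
            ⋂ j, {s : Fin r → ℝ | s j < ρ j / 2} := by
          ext s
          simp
        rw [e1]
        exact isOpen_iInter_of_finite fun j => isOpen_lt (continuous_apply j) continuous_const
      · have := h1 j
        change (‖B j y - b j‖ ^ 2 / 2 + ρ j / 2) / 2 < ρ j / 2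
        linarith
  · refine ((pin_of hP).en.bdd fun j => ρ j / 2).subset fun y hy j => ?_
    have h1 : ‖B j y - b j‖ ^ 2 ≤ ρ j := hy.1 j
    change ‖B j y - b j‖ ^ 2 / 2 ≤ ρ j / 2
    linarith

theorem affine_eq {m n : ℕ} (T : Euc m →ᵃ[ℝ] Euc n) (K : Set (Euc m)) :
    T '' K = (fun x => T 0 + T.linear x) '' K := by
  refine image_congr fun x _ => ?_
  have h := T.map_vadd 0 x
  rw [vadd_eq_add, add_zero] at h
  rw [h, vadd_eq_add, add_comm]

theorem star_of (Λ : ℝ) (hΛ : 1 ≤ Λ) (r k p : ℕ) : ∃ c : ℝ, 0 < c ∧ ∀ (n n' : ℕ)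
    (K : Set (Euc n)) (T : Euc n →ᵃ[ℝ] Euc n'), PinchedBody Λ r k K → n ≤ n' + p →
    Function.Surjective T → IsCompact (T '' K) ∧ Convex ℝ (T '' K) ∧
    (interior (T '' K)).Nonempty ∧ Pool.Agent.Y506.RG.Star c (Pool.Agent.Y506.PV.ind (T '' K)) := by
  obtain ⟨A', H⟩ := Pool.Agent.U405.KE.pin_body Λ (by linarith) r k
  obtain ⟨c, hc, Hc⟩ := Pool.Agent.U405.KE.img_star A' p
  refine ⟨c, hc, ?_⟩
  rintro n n' K T ⟨U, S, B, D, hk, hU, hS, hD, hnd, hK, hb⟩ hn hT
  rw [hK] at hb
  obtain ⟨k1, k2, k3, k4⟩ := H n U S B D hk hU (pin_of hS) hD.closed hD.convex hD.down hb hnd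
  have h5 := Hc n n' _ T.linear (T 0) k1 k2 k3 k4 hn (by rwa [AffineMap.linear_surjective_iff])
  rw [← affine_eq] at h5
  rw [hK]
  exact h5

/-- from the functional inequality to central sections -/
theorem hyper_of : ∀ c : ℝ, 0 < c → ∃ C : ℝ, 0 < C ∧ ∀ (n : ℕ) (P : Set (Euc n)), 1 ≤ n →
    IsCompact P → Convex ℝ P → (interior P).Nonempty →
    Pool.Agent.Y506.RG.Star c (Pool.Agent.Y506.PV.ind P) → (∀ x ∈ P, -x ∈ P) →
    HyperplaneBound C (interior P) := by
  intro c hc
  obtain ⟨C, hC, H'⟩ := Pool.Agent.Y151.PV.hyp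
  refine ⟨C * c, by positivity, fun n P hn h1 h2 h3 h4 hs => ?_⟩
  have hcl : closure (interior P) = P := by
    rw [h2.closure_interior_eq_closure_of_nonempty_interior h3, h1.isClosed.closure_eq]
  have hsi : ∀ x ∈ interior P, -x ∈ interior P := by
    intro x hx
    have hop : IsOpen ((fun y => -y) ⁻¹' interior P) := isOpen_interior.preimage continuous_neg
    have hsub : (fun y => -y) ⁻¹' interior P ⊆ P := by
      intro y hy
      have := hs _ (interior_subset hy)
      rwa [neg_neg] at this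
    exact interior_maximal hsub hop (by simpa using hx)
  have h0 : (0 : Euc n) ∈ interior P := by
    obtain ⟨x, hx⟩ := h3
    have h := h2.interior hx (hsi x hx) (by norm_num : (0 : ℝ) ≤ 1 / 2)
      (by norm_num : (0 : ℝ) ≤ 1 / 2) (by norm_num)
    rwa [smul_neg, add_neg_cancel] at h
  obtain ⟨a, ha, h⟩ := H' n hn (interior P) isOpen_interior h2.interior
    (h1.isBounded.subset interior_subset) h0 hsi c hc (by rw [hcl]; exact h4)
  refine ⟨a, ha, fun E hE hEΩ hvol => ?_⟩
  rw [← perimeter_eq]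
  by_cases hp : Pool.Agent.W695.KH.per E (interior P) = ⊤
  · rw [hp, ENNReal.mul_top (ENNReal.ofReal_pos.2 (by positivity)).ne']
    exact le_top
  · refine (h E hE hEΩ hvol _ (Pool.Agent.W695.KH.perLe_toReal E _ hp)).trans (le_of_eq ?_)
    rw [ENNReal.ofReal_mul (by positivity), ENNReal.ofReal_toReal hp]

/-- **The hyperplane conjecture of KLS for bodies given by few functions with pinched Hessians.** For all
`Λ ≥ 1` and `r, k, p` there is a constant `C > 0` such that for all bodies `K = {y | (S(y), U y) ∈ D} ⊂ ℝⁿ` of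
the class `PinchedBody Λ r k` and all affine maps `T` of `ℝⁿ` onto `ℝ^{n'}`, `n' ≥ 1`, `n ≤ n' + p`, with
`T K = -T K`, some central hyperplane section of the interior `Ω` of `T K` has area at most `C P(E; Ω)` for
all measurable `E ⊆ Ω` with `|E| = |Ω| / 2`. -/
theorem result : ∀ (Λ : ℝ) (r k p : ℕ), 1 ≤ Λ → ∃ C : ℝ, 0 < C ∧
    ∀ (n n' : ℕ) (K : Set (Euc n)) (T : Euc n →ᵃ[ℝ] Euc n'), 1 ≤ n' → PinchedBody Λ r k K →
    n ≤ n' + p → Function.Surjective T → (∀ x ∈ T '' K, -x ∈ T '' K) →
    HyperplaneBound C (interior (T '' K)) := by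
  intro Λ r k p hΛ
  obtain ⟨c, hc, H⟩ := star_of Λ hΛ r k p
  obtain ⟨C, hC, H'⟩ := hyper_of c hc
  refine ⟨C, hC, fun n n' K T hn' hK hn hT hs => ?_⟩
  obtain ⟨h1, h2, h3, h4⟩ := H n n' K T hK hn hT
  exact H' n' _ hn' h1 h2 h3 h4 hs

end Pool.Agent.Results.MP_dc1397_gt.PinchedEnergies
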